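import Mathlib
import Pool.Agent.V11161.BH.Propor3
import Pool.Agent.V11208.TR.Three

set_option autoImplicit false

/-!
# MP_924d78_nt: tame representations over Noetherian local rings of residue characteristic three, the
proportion of the sets of ramified primes

Let `m ≥ 1`. For a finite set `S` of primes different from `3`, none of them `1` modulo
`3 ^ (m + 1)`, consider the continuous representations `ρ : Gal(ℚbar/ℚ) → GL_n(A)`, of any dimension
`n` and with coefficients in an arbitrary Noetherian local ring `A` of residue characteristic three,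
with its adic topology, which are unramified outside `S` (so also at `3`) and trivial modulo `3 ^ m` on
the inertia groups at the primes in `S`. The conjecture predicts that the image of `ρ` is finite.

Here the primes `≡ 1 mod 3 ^ m` in `S` are chosen at random: for every `r` the prediction is true, for
all `n` and all `A` simultaneously, for at least the proportion `density3 r - o(1)` of the `r`-element
sets `S` of primes `l ≤ N` with `3 ^ m ∣ l - 1` and `3 ^ (m + 1) ∤ l - 1`, and then also for all sets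
`S ∪ S₁` with arbitrary finite sets `S₁` of primes `l ≠ 3` with `3 ^ m ∤ l - 1`. The image is even trivial
for all `A` in which `3 ^ (m + 1) a = 0` implies `3 ^ m a = 0`. The number `density3 r > 0` is defined in
terms of matrices over `ℤ/3`. For three primes it is at least `721 / 729`, more than 98.9 percent.

Proof. The criterion for one set `S` (`Pool.Agent.V11208.TR.tame_three_noeth`) follows from the starting
result `AllDimensions` and the matrix computations of the starting result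
`MP_f68ac8_nt.TameAllRanks`; the equidistribution of the linking numbers of a random tuple of primes and
the resulting law are due to helper161 (`Pool.Agent.V11161.BH.proportion3`, in
`MP_f68ac8_nt.CubicProportion`, for discrete valuation rings of characteristic zero).
-/

namespace Pool.Agent.Results.MP_924d78_nt.CubicProportion

open NumberField IsLocalRing Filter

/-- `ρ` is unramified at all primes that do not lie above a prime number in `S` -/
def UnramifiedOutside {n : ℕ} {A : Type} [CommRing A] (S : Finset ℕ)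
    (ρ : Gal(AlgebraicClosure ℚ/ℚ) →* GL (Fin n) A) : Prop :=
  ∀ P : Ideal (𝓞 (AlgebraicClosure ℚ)), P.IsMaximal →
    (∀ l ∈ S, (l : 𝓞 (AlgebraicClosure ℚ)) ∉ P) →
    ∀ τ : Gal(AlgebraicClosure ℚ/ℚ), (∀ x : 𝓞 (AlgebraicClosure ℚ), τ • x - x ∈ P) → ρ τ = 1

/-- the inertia groups at the primes above a prime number in `S` act trivially modulo `3 ^ m` -/
def InertiaTrivialMod {n : ℕ} {A : Type} [CommRing A] (m : ℕ) (S : Finset ℕ)
    (ρ : Gal(AlgebraicClosure ℚ/ℚ) →* GL (Fin n) A) : Prop :=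
  ∀ P : Ideal (𝓞 (AlgebraicClosure ℚ)), P.IsMaximal →
    (∃ l ∈ S, (l : 𝓞 (AlgebraicClosure ℚ)) ∈ P) →
    ∀ τ : Gal(AlgebraicClosure ℚ/ℚ), (∀ x : 𝓞 (AlgebraicClosure ℚ), τ • x - x ∈ P) →
      ∀ i j, (3 : A) ^ m ∣ ((ρ τ : Matrix (Fin n) (Fin n) A) - 1) i j

/-- Every continuous representation of any dimension `n` over any Noetherian local ring `A` of residue
characteristic three, which is unramified outside `S` and trivial modulo `3 ^ m` on the inertia groups
at the primes in `S`, has finite image, and is trivial if `3 ^ (m + 1) a = 0` implies `3 ^ m a = 0` in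
`A`. -/
def TameFinite (m : ℕ) (S : Finset ℕ) : Prop :=
  ∀ (n : ℕ) (A : Type) [CommRing A] [IsLocalRing A] [IsNoetherianRing A]
    [TopologicalSpace A], IsAdic (maximalIdeal A) → (3 : A) ∈ maximalIdeal A →
    ∀ ρ : Gal(AlgebraicClosure ℚ/ℚ) →* GL (Fin n) A, Continuous ρ → UnramifiedOutside S ρ →
      InertiaTrivialMod m S ρ → (Set.range ρ).Finite ∧
        ((∀ a : A, (3 : A) ^ (m + 1) * a = 0 → (3 : A) ^ m * a = 0) → ∀ g, ρ g = 1)

/-- For levels `u l = ± 1` and a matrix `L` over `ℤ/3` and a set `J` of indices: some row `l ∈ J` has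
at most one nonzero entry `L l j` with `j ∈ J`, `j ≠ l`; or `L l j = 0` for all `l ∈ K`, `j ∈ J \ K`
for a nonempty proper subset `K` of `J`; or `L l j = a l * c j` for all `l ≠ j` in `J`; or
`J = {a, b, c}` and `u b * L a c + u a * L b c ≠ 0`. -/
def Loose {r : ℕ} (u : Fin r → (ZMod 3)ˣ) (L : Fin r → Fin r → ZMod 3) (J : Finset (Fin r)) :
    Prop :=
  (∃ l ∈ J, {j : Fin r | j ∈ J ∧ j ≠ l ∧ L l j ≠ 0}.Subsingleton) ∨
  (∃ K : Finset (Fin r), K ⊂ J ∧ K.Nonempty ∧ ∀ l ∈ K, ∀ j ∈ J, j ∉ K → L l j = 0) ∨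
  (∃ a c : Fin r → ZMod 3, ∀ l ∈ J, ∀ j ∈ J, l ≠ j → L l j = a l * c j) ∨
  ∃ a b c : Fin r, a ≠ b ∧ a ≠ c ∧ b ≠ c ∧ J = {a, b, c} ∧
    (u b : ZMod 3) * L a c + (u a : ZMod 3) * L b c ≠ 0

/-- all sets of at least three indices are loose -/
def Good {r : ℕ} (u : Fin r → (ZMod 3)ˣ) (L : Fin r → Fin r → ZMod 3) : Prop :=
  ∀ J : Finset (Fin r), 3 ≤ J.card → Loose u L J

/-- the smallest proportion, over all `u`, of the good matrices among the `r × r` matrices over `ℤ/3`
with zero diagonal -/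
noncomputable def density3 (r : ℕ) : ℝ :=
  ⨅ u : Fin r → (ZMod 3)ˣ,
    (Nat.card {L : Fin r → Fin r → ZMod 3 // (∀ i, L i i = 0) ∧ Good u L} : ℝ) /
      Nat.card {L : Fin r → Fin r → ZMod 3 // ∀ i, L i i = 0}

/-- the `r`-element sets of primes `l ≤ N` which are `1` modulo `3 ^ m` and not modulo `3 ^ (m + 1)` -/
def sets (m r N : ℕ) : Set (Finset ℕ) :=
  {S : Finset ℕ | S.card = r ∧ ∀ l ∈ S, l ≤ N ∧ l.Prime ∧ 3 ^ m ∣ l - 1 ∧ ¬ 3 ^ (m + 1) ∣ l - 1}

/-- those `S` for which the prediction is true, for `S` and for all `S ∪ S₁` with a finite set `S₁` of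
primes `l ≠ 3` which are not `1` modulo `3 ^ m` -/
def goodSets (m r N : ℕ) : Set (Finset ℕ) :=
  {S : Finset ℕ | S ∈ sets m r N ∧
    ∀ S₁ : Finset ℕ, (∀ l ∈ S₁, l.Prime ∧ l ≠ 3 ∧ ¬ 3 ^ m ∣ l - 1) → TameFinite m (S ∪ S₁)}

theorem result (m : ℕ) (hm : 1 ≤ m) :
    (∀ (r : ℕ) (ε : ℝ), 0 < ε → ∀ᶠ N : ℕ in atTop,
      (density3 r - ε) * ((sets m r N).ncard : ℝ) ≤ ((goodSets m r N).ncard : ℝ)) ∧
    (∀ r : ℕ, 0 < density3 r) ∧ 721 / 729 ≤ density3 3 := by
  classical
  refine ⟨fun r ε hε => ?_, Pool.Agent.V11161.BH.density3_pos, Pool.Agent.V11161.BH.density33⟩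
  have h := Pool.Agent.V11161.BH.proportion3 r m hm
    (fun S => ∀ S₁ : Finset ℕ, (∀ l ∈ S₁, l.Prime ∧ l ≠ 3 ∧ ¬ 3 ^ m ∣ l - 1) →
      TameFinite m (S ∪ S₁)) ?_ ε hε
  · refine h.mono fun N hN => ?_
    have key : ∀ S : Finset ℕ, S ∈ sets m r N ↔ (S ⊆ Pool.Agent.V11161.BH.P3 m N ∧ S.card = r) := by
      intro S
      constructor
      · rintro ⟨h1, h2⟩
        exact ⟨fun l hl => (Pool.Agent.V11161.BH.mem_P3 hm).2 (h2 l hl), h1⟩
      · rintro ⟨h1, h2⟩
        exact ⟨h2, fun l hl => (Pool.Agent.V11161.BH.mem_P3 hm).1 (h1 hl)⟩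
    have e1 : (sets m r N).ncard =
        Nat.card {S : Finset ℕ // S ⊆ Pool.Agent.V11161.BH.P3 m N ∧ S.card = r} := by
      rw [← Nat.card_coe_set_eq]
      exact Nat.card_congr (Equiv.subtypeEquivRight key)
    have e2 : (goodSets m r N).ncard =
        Nat.card {S : Finset ℕ // (S ⊆ Pool.Agent.V11161.BH.P3 m N ∧ S.card = r) ∧
          ∀ S₁ : Finset ℕ, (∀ l ∈ S₁, l.Prime ∧ l ≠ 3 ∧ ¬ 3 ^ m ∣ l - 1) →
            TameFinite m (S ∪ S₁)} := by
      rw [← Nat.card_coe_set_eq]
      exact Nat.card_congr (Equiv.subtypeEquivRight fun S => and_congr_left' (key S))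
    rw [e1, e2]
    exact hN
  · intro S hS hJ S₁ hS₁ n A _ _ _ _ hA h3A ρ hρ hur hI
    refine Pool.Agent.V11208.TR.tame_three_noeth m n hm (S ∪ S₁) ?_ ?_ A hA h3A ρ hρ hur ?_
    · intro l hl
      rcases Finset.mem_union.1 hl with h5 | h5
      · refine ⟨(hS l h5).1, ?_, (hS l h5).2.2⟩
        rintro rfl
        have h6 := (dvd_pow_self 3 (by omega : m ≠ 0)).trans (hS 3 h5).2.1
        norm_num at h6
      · refine ⟨(hS₁ l h5).1, (hS₁ l h5).2.1, fun hd => (hS₁ l h5).2.2 ?_⟩
        exact (pow_dvd_pow 3 (Nat.le_succ m)).trans hd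
    · intro J hJS hJm hJ3
      refine hJ J (fun l hl => ?_) hJ3
      rcases Finset.mem_union.1 (hJS hl) with h5 | h5
      · exact h5
      · exact absurd (hJm l hl) (hS₁ l h5).2.2
    · intro P hP hl τ hτ i j
      have h5 := hI P hP hl τ hτ i j
      rw [Nat.cast_ofNat]
      exact h5

end Pool.Agent.Results.MP_924d78_nt.CubicProportion
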