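import Mathlib
import Pool.Agent.V11208.TR.Rank4

set_option autoImplicit false

/-!
# MP_924d78_nt: tame representations of rank at most four over Noetherian local rings of residue
characteristic two

Let `m ≥ 2` and let `S` be a finite set of odd primes, none of them `1` modulo `2 ^ (m + 1)`. Let `A` be
an arbitrary Noetherian local ring of residue characteristic two, with its adic topology, for example
any complete Noetherian local ring with a finite residue field of characteristic two. Let
`ρ : Gal(ℚbar/ℚ) → GL_n(A)` be a continuous representation which is unramified outside `S` (so also at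
`2`) and trivial modulo `2 ^ m` on the inertia groups at the primes in `S`.

* If `n = 2`, the image of `ρ` is finite: there is NO condition on the number of the primes in `S` or on
  their quadratic residue symbols.
* If `n = 3` or `n = 4`, the image of `ρ` is finite if at most five primes in `S` are `1` modulo `2 ^ m`, with no
  condition on their quadratic residue symbols. More generally it suffices that every set `J` of at
  least six of these primes is loose: some `l ∈ J` is a quadratic residue (or: a nonresidue) modulo all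
  the other elements of `J` but at most one, or the graph of the pairs of residues in `J` is
  disconnected or has a disconnected complement.

In all cases `ρ` is trivial if `2 ^ (m + 1) a = 0` implies `2 ^ m a = 0` in `A`, for example if `2` is not
a zero divisor in `A`. If `S` has at least five elements `≡ 5 mod 8`, the Galois group of the maximal
2-extension of `ℚ` unramified outside `S` is infinite (Golod and Shafarevich). For five primes whose
residue graph is a pentagon no criterion of the library applies.

Proof. The criterion for Noetherian local rings is the starting result `AllDimensions`: one has to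
exclude nonzero nilpotent matrices `M l`, `l ∈ J`, over a field of characteristic two, such that the
commutator of `X l = ∑ j, λ l j • M j` and `M l` is `M l`. In rank two there are none, since `X l` has
trace zero, hence equal diagonal entries (`Pool.Agent.V11161.BH.noTuple_two` of helper161). In rank three
and four and for five primes only the pentagon has to be excluded. Let `e₂` and `e₃` be the
coefficients of the characteristic polynomial. The relation implies `e₃(X l) = 1 + e₂(X l)` (in rank at
most four), `tr (M l ^ 2 X l) = 0` and `∑ M l = 0`; the first identity, summed over the five vertices,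
shows that the sum of the `tr (M l M (l + 2))` is one; this sum is equal to the sum of the
`tr ([M (l - 1), M l] M (l + 1))`, and this is zero by the sum of the five identities
`e₃(M l + M (l + 1)) = e₃(M (l + 2) + M (l + 3) + M (l + 4))`.
-/

namespace Pool.Agent.Results.MP_924d78_nt.RankAtMostFour

open NumberField IsLocalRing

/-- `ρ` is unramified at all primes that do not lie above a prime number in `S` -/
def UnramifiedOutside {n : ℕ} {A : Type} [CommRing A] (S : Finset ℕ)
    (ρ : Gal(AlgebraicClosure ℚ/ℚ) →* GL (Fin n) A) : Prop :=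
  ∀ P : Ideal (𝓞 (AlgebraicClosure ℚ)), P.IsMaximal →
    (∀ l ∈ S, (l : 𝓞 (AlgebraicClosure ℚ)) ∉ P) →
    ∀ τ : Gal(AlgebraicClosure ℚ/ℚ), (∀ x : 𝓞 (AlgebraicClosure ℚ), τ • x - x ∈ P) → ρ τ = 1

/-- the inertia groups at the primes above a prime number in `S` act trivially modulo `2 ^ m` -/
def InertiaTrivialMod {n : ℕ} {A : Type} [CommRing A] (m : ℕ) (S : Finset ℕ)
    (ρ : Gal(AlgebraicClosure ℚ/ℚ) →* GL (Fin n) A) : Prop :=
  ∀ P : Ideal (𝓞 (AlgebraicClosure ℚ)), P.IsMaximal →
    (∃ l ∈ S, (l : 𝓞 (AlgebraicClosure ℚ)) ∈ P) →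
    ∀ τ : Gal(AlgebraicClosure ℚ/ℚ), (∀ x : 𝓞 (AlgebraicClosure ℚ), τ • x - x ∈ P) →
      ∀ i j, (2 : A) ^ m ∣ ((ρ τ : Matrix (Fin n) (Fin n) A) - 1) i j

/-- Every continuous representation of dimension `n` over any Noetherian local ring `A` of residue
characteristic two, which is unramified outside `S` and trivial modulo `2 ^ m` on the inertia groups at
the primes in `S`, has finite image, and is trivial if `2 ^ (m + 1) a = 0` implies `2 ^ m a = 0` in `A`. -/
def TameFinite (n m : ℕ) (S : Finset ℕ) : Prop :=
  ∀ (A : Type) [CommRing A] [IsLocalRing A] [IsNoetherianRing A]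
    [TopologicalSpace A], IsAdic (maximalIdeal A) → (2 : A) ∈ maximalIdeal A →
    ∀ ρ : Gal(AlgebraicClosure ℚ/ℚ) →* GL (Fin n) A, Continuous ρ → UnramifiedOutside S ρ →
      InertiaTrivialMod m S ρ → (Set.range ρ).Finite ∧
        ((∀ a : A, (2 : A) ^ (m + 1) * a = 0 → (2 : A) ^ m * a = 0) → ∀ g, ρ g = 1)

/-- Some `l ∈ J` is a quadratic residue modulo all other elements of `J` but at most one, or a
nonresidue modulo all but at most one, or `J` has a nonempty proper subset `K` such that all `l ∈ K`
are residues modulo all `j ∈ J \ K`, or all are nonresidues. -/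
def Loose (J : Finset ℕ) : Prop :=
  (∃ l ∈ J, {j : ℕ | j ∈ J ∧ j ≠ l ∧ ¬ IsSquare (l : ZMod j)}.Subsingleton) ∨
  (∃ l ∈ J, {j : ℕ | j ∈ J ∧ j ≠ l ∧ IsSquare (l : ZMod j)}.Subsingleton) ∨
  ∃ K : Finset ℕ, K ⊂ J ∧ K.Nonempty ∧
    ((∀ l ∈ K, ∀ j ∈ J, j ∉ K → IsSquare (l : ZMod j)) ∨
      ∀ l ∈ K, ∀ j ∈ J, j ∉ K → ¬ IsSquare (l : ZMod j))

theorem result (m : ℕ) (hm : 2 ≤ m) (S : Finset ℕ)
    (hS : ∀ l ∈ S, l.Prime ∧ l ≠ 2 ∧ ¬ 2 ^ (m + 1) ∣ l - 1) :
    TameFinite 2 m S ∧
    ((S.filter fun l => 2 ^ m ∣ l - 1).card ≤ 5 → TameFinite 3 m S ∧ TameFinite 4 m S) ∧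
    ((∀ J : Finset ℕ, J ⊆ S → (∀ l ∈ J, 2 ^ m ∣ l - 1) → 6 ≤ J.card → Loose J) →
      TameFinite 3 m S ∧ TameFinite 4 m S) := by
  have h3 : (∀ J : Finset ℕ, J ⊆ S → (∀ l ∈ J, 2 ^ m ∣ l - 1) → 6 ≤ J.card → Loose J) →
      TameFinite 3 m S ∧ TameFinite 4 m S := by
    intro hJ
    constructor
    · intro A _ _ _ _ hA h2 ρ hρ hur hI
      refine Pool.Agent.V11208.TR.rank_three_noeth m hm S hS hJ A hA h2 ρ hρ hur ?_
      intro P hP hl τ hτ i j
      have h5 := hI P hP hl τ hτ i j
      rw [Nat.cast_ofNat]
      exact h5
    · intro A _ _ _ _ hA h2 ρ hρ hur hI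
      refine Pool.Agent.V11208.TR.rank_four_noeth m hm S hS hJ A hA h2 ρ hρ hur ?_
      intro P hP hl τ hτ i j
      have h5 := hI P hP hl τ hτ i j
      rw [Nat.cast_ofNat]
      exact h5
  refine ⟨?_, fun hc => h3 fun J hJS hJm h6 => ?_, h3⟩
  · intro A _ _ _ _ hA h2 ρ hρ hur hI
    refine Pool.Agent.V11208.TR.rank_two_noeth m hm S hS A hA h2 ρ hρ hur ?_
    intro P hP hl τ hτ i j
    have h5 := hI P hP hl τ hτ i j
    rw [Nat.cast_ofNat]
    exact h5
  · exfalso
    have h4 : J ⊆ S.filter fun l => 2 ^ m ∣ l - 1 := fun l hl =>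
      Finset.mem_filter.2 ⟨hJS hl, hJm l hl⟩
    have h5 := Finset.card_le_card h4
    omega

end Pool.Agent.Results.MP_924d78_nt.RankAtMostFour
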