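import Mathlib
import Pool.Agent.V11161.BH.Graph
import Pool.Agent.V11161.BH.APU
import Pool.Agent.V11208.TR.Tame

set_option autoImplicit false

/-!
# MP_924d78_nt: tame representations over Noetherian local rings of residue characteristic two, ramified
at clusters of primes, for almost all configurations of the primes in a Bohr set

Let `m ≥ 2`. For a finite set `S` of odd primes, none of them `1` modulo `2 ^ (m + 1)`, consider the
continuous representations `ρ : Gal(ℚbar/ℚ) → GL_n(A)`, of any dimension `n` and with coefficients in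
an arbitrary Noetherian local ring `A` of residue characteristic two, with its adic topology, which are
unramified outside `S` (so also at `2`) and trivial modulo `2 ^ m` on the inertia groups at the primes
in `S`. The conjecture predicts that the image of `ρ` is finite.

Let `S₀` be such a set of primes for which every set `J ⊆ S₀` of at least five primes `≡ 1 mod 2 ^ m`
is loose: some `l ∈ J` is a quadratic residue (or: a nonresidue) modulo all the other elements of `J`
but at most one, or the graph of the pairs of residues is disconnected or has a disconnected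
complement. For all `k` and `η > 0` there are `d`, `C`, `X₀`, `ρ > 0`, `b > 0`, which depend only on
`k` and `η`, such that for all `m`, `S₀` and `X ≥ X₀` there are `W` and frequencies `θ_1, …, θ_d` with
the following property. Let `B` be the Bohr set of all integers `|h| ≤ X` with
`|exp (2 π i h θ_j) - 1| ≤ ρ` for all `j`; it has at least `b X` elements. For at least
`(1 - η) |B| ^ k` of the vectors `(h_1, …, h_k)` in `B ^ k` and for arbitrarily large `N`, the same for
all these vectors, there are at least `N / (log N) ^ C` primes `p ≤ N` such that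
`p, p + W h_1, …, p + W h_k` are distinct primes outside `S₀`, all `≡ 1 mod 2 ^ m` and
`≢ 1 mod 2 ^ (m + 1)`, and such that all the representations as above for the set
`S = S₀ ∪ {p, p + W h_1, …, p + W h_k}` have finite image, and are trivial if `2 ^ (m + 1) a = 0` implies
`2 ^ m a = 0` in `A`.

Proof. The criterion for one set `S` (`Pool.Agent.V11208.TR.tame_noeth`, by helper208, from the starting
results `AllDimensions` of this problem and `MP_f68ac8_nt.TameAllRanks`) reduces the statement to the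
condition that every `J ⊆ S` of at least five primes `≡ 1 mod 2 ^ m` is loose. New here: the primes are
found in residue classes for which this graph can be computed: the residue symbol of `p + W h_i` and
`p + W h_j` is a function of the 2-adic valuation of `h_i - h_j`, so that the graph is obtained from one
point graphs by repeated disjoint unions and joins. The configurations of primes come from the theorem
on clusters of primes for linear forms (`Pool.Agent.V11161.CL`) and the energy increment argument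
(`Pool.Agent.V11161.BF`), which are uniform in the modulus.
-/

namespace Pool.Agent.Results.MP_924d78_nt.TameClusters

open NumberField IsLocalRing Filter

/-- `ρ` is unramified at all primes that do not lie above a prime number in `S` -/
def UnramifiedOutside {n : ℕ} {A : Type} [CommRing A] (S : Finset ℕ)
    (ρ : Gal(AlgebraicClosure ℚ/ℚ) →* GL (Fin n) A) : Prop :=
  ∀ P : Ideal (𝓞 (AlgebraicClosure ℚ)), P.IsMaximal →
    (∀ l ∈ S, (l : 𝓞 (AlgebraicClosure ℚ)) ∉ P) →
    ∀ τ : Gal(AlgebraicClosure ℚ/ℚ), (∀ x : 𝓞 (AlgebraicClosure ℚ), τ • x - x ∈ P) → ρ τ = 1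

/-- the inertia groups at the primes above a prime number in `S` act trivially modulo `2 ^ m` -/
def InertiaTrivialMod {n : ℕ} {A : Type} [CommRing A] (m : ℕ) (S : Finset ℕ)
    (ρ : Gal(AlgebraicClosure ℚ/ℚ) →* GL (Fin n) A) : Prop :=
  ∀ P : Ideal (𝓞 (AlgebraicClosure ℚ)), P.IsMaximal →
    (∃ l ∈ S, (l : 𝓞 (AlgebraicClosure ℚ)) ∈ P) →
    ∀ τ : Gal(AlgebraicClosure ℚ/ℚ), (∀ x : 𝓞 (AlgebraicClosure ℚ), τ • x - x ∈ P) →
      ∀ i j, (2 : A) ^ m ∣ ((ρ τ : Matrix (Fin n) (Fin n) A) - 1) i j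

/-- Every continuous representation of any dimension `n` over any Noetherian local ring `A` of residue
characteristic two, which is unramified outside `S` and trivial modulo `2 ^ m` on the inertia groups at
the primes in `S`, has finite image, and is trivial if `2 ^ (m + 1) a = 0` implies `2 ^ m a = 0` in `A`. -/
def TameFinite (m : ℕ) (S : Finset ℕ) : Prop :=
  ∀ (n : ℕ) (A : Type) [CommRing A] [IsLocalRing A] [IsNoetherianRing A]
    [TopologicalSpace A], IsAdic (maximalIdeal A) → (2 : A) ∈ maximalIdeal A →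
    ∀ ρ : Gal(AlgebraicClosure ℚ/ℚ) →* GL (Fin n) A, Continuous ρ → UnramifiedOutside S ρ →
      InertiaTrivialMod m S ρ → (Set.range ρ).Finite ∧
        ((∀ a : A, (2 : A) ^ (m + 1) * a = 0 → (2 : A) ^ m * a = 0) → ∀ g, ρ g = 1)

/-- Some `l ∈ J` is a quadratic residue modulo all other elements of `J` but at most one, or a
nonresidue modulo all but at most one, or `J` has a nonempty proper subset `K` such that all `l ∈ K`
are residues modulo all `j ∈ J \ K`, or all are nonresidues. -/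
def Loose (J : Finset ℕ) : Prop :=
  (∃ l ∈ J, {j : ℕ | j ∈ J ∧ j ≠ l ∧ ¬ IsSquare (l : ZMod j)}.Subsingleton) ∨
  (∃ l ∈ J, {j : ℕ | j ∈ J ∧ j ≠ l ∧ IsSquare (l : ZMod j)}.Subsingleton) ∨
  ∃ K : Finset ℕ, K ⊂ J ∧ K.Nonempty ∧
    ((∀ l ∈ K, ∀ j ∈ J, j ∉ K → IsSquare (l : ZMod j)) ∨
      ∀ l ∈ K, ∀ j ∈ J, j ∉ K → ¬ IsSquare (l : ZMod j))

/-- the condition on `S₀`: odd primes, not `1` modulo `2 ^ (m + 1)`, and all sets of at least five of
those which are `1` modulo `2 ^ m` are loose -/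
def GoodSet (m : ℕ) (S₀ : Finset ℕ) : Prop :=
  (∀ l ∈ S₀, l.Prime ∧ l ≠ 2 ∧ ¬ 2 ^ (m + 1) ∣ l - 1) ∧
    ∀ J : Finset ℕ, J ⊆ S₀ → (∀ l ∈ J, 2 ^ m ∣ l - 1) → 5 ≤ J.card → Loose J

/-- the primes `p ≤ N` such that `p = q_0` and `q_i = p + W h_i` are `k + 1` distinct primes outside
`S₀`, `1` modulo `2 ^ m` and not modulo `2 ^ (m + 1)`, and the conjecture holds for
`S₀ ∪ {q_0, …, q_k}` -/
def goodPrimes {k : ℕ} (m : ℕ) (S₀ : Finset ℕ) (W : ℕ) (h : Fin k → ℤ) (N : ℕ) : Set ℕ :=
  {p : ℕ | p ≤ N ∧ ∃ q : Fin (k + 1) → ℕ, q 0 = p ∧ (∀ i : Fin k, (q i.succ : ℤ) = p + W * h i) ∧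
    Function.Injective q ∧
    (∀ i, (q i).Prime ∧ q i ∉ S₀ ∧ 2 ^ m ∣ q i - 1 ∧ ¬ 2 ^ (m + 1) ∣ q i - 1) ∧
    TameFinite m (S₀ ∪ Finset.univ.image q)}

/-- the Bohr set of the frequencies `θ_j`, of radius `ρ` and width `X` -/
def bohrSet {d : ℕ} (θ : Fin d → ℝ) (ρ : ℝ) (X : ℕ) : Set ℤ :=
  {h : ℤ | |h| ≤ X ∧ ∀ j, ‖Complex.exp (2 * Real.pi * Complex.I * (h * θ j)) - 1‖ ≤ ρ}

theorem result (k : ℕ) (η : ℝ) (hη : 0 < η) :
    ∃ (d C X₀ : ℕ) (ρ b : ℝ), 0 < ρ ∧ 0 < b ∧
      ∀ (m : ℕ) (S₀ : Finset ℕ), 2 ≤ m → GoodSet m S₀ → ∀ X : ℕ, X₀ ≤ X →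
        ∃ (W : ℕ) (θ : Fin d → ℝ) (H : Finset (Fin k → ℤ)), 0 < W ∧
          b * X ≤ ((bohrSet θ ρ X).ncard : ℝ) ∧
          (∀ h ∈ H, (∀ i, h i ∈ bohrSet θ ρ X ∧ h i ≠ 0) ∧ Function.Injective h) ∧
          (1 - η) * ((bohrSet θ ρ X).ncard : ℝ) ^ k ≤ (H.card : ℝ) ∧
          ∃ᶠ N : ℕ in atTop, ∀ h ∈ H, (N : ℝ) / (Real.log N) ^ C ≤
            ((goodPrimes m S₀ W h N).ncard : ℝ) := by
  classical
  obtain ⟨z, d, C, X₀, ρ, b, hρ, hb, hU⟩ := Pool.Agent.V11161.BH.bohrAPU k η hη
  refine ⟨d, C, X₀, ρ, b, hρ, hb, fun m S₀ hm hS X hX => ?_⟩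
  obtain ⟨hS1, hS2⟩ := hS
  -- the modulus
  set F : ℕ := (2 * X + z + 1).factorial * ∏ l ∈ S₀, l with hF
  have hF0 : F ≠ 0 := by
    refine mul_ne_zero (Nat.factorial_ne_zero _) (Finset.prod_ne_zero_iff.2 fun l hl => ?_)
    exact (hS1 l hl).1.ne_zero
  set Q : ℕ := F / 2 ^ F.factorization 2 with hQ
  have hQF : 2 ^ F.factorization 2 * Q = F := Nat.ordProj_mul_ordCompl_eq_self F 2
  have hQodd : ¬ 2 ∣ Q := Nat.not_dvd_ordCompl Nat.prime_two hF0
  have hQ0 : 0 < Q := Nat.pos_of_ne_zero fun h => hQodd (by rw [h]; exact dvd_zero 2)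
  have hqQ : ∀ q : ℕ, q.Prime → q ≠ 2 → q ∣ F → q ∣ Q := by
    intro q hq hq2 hd
    rw [← hQF] at hd
    rcases (Nat.Prime.dvd_mul hq).1 hd with h | h
    · exact absurd ((Nat.prime_dvd_prime_iff_eq hq Nat.prime_two).1 (hq.dvd_of_dvd_pow h)) hq2
    · exact h
  have hSQ : ∀ l ∈ S₀, l ∣ Q := fun l hl => hqQ l (hS1 l hl).1 (hS1 l hl).2.1
    ((Finset.dvd_prod_of_mem _ hl).mul_left _)
  have hsmall : ∀ q : ℕ, q.Prime → q ≠ 2 → q ≤ 2 * X + z + 1 → q ∣ Q := fun q hq hq2 hle =>
    hqQ q hq hq2 ((Nat.dvd_factorial hq.pos hle).mul_right _)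
  set M : ℕ := 2 ^ (m + 1) * Q with hM
  set c : ℕ := 1 + 2 ^ m * Q with hc
  have hM0 : 0 < M := by positivity
  have hcop : Nat.Coprime c M := by
    rw [hM]
    refine Nat.Coprime.mul_right (Nat.Coprime.pow_right _ ?_) ?_
    · rw [Nat.coprime_comm, Nat.prime_two.coprime_iff_not_dvd, hc]
      have h4 : 2 ∣ 2 ^ m * Q := (dvd_pow_self 2 (by omega)).mul_right Q
      omega
    · rw [hc, Nat.coprime_add_mul_right_left]
      exact Nat.coprime_one_left Q
  obtain ⟨θ, H, h1, h2, h3, h4⟩ := hU M hM0 c hcop X hX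
  refine ⟨M * z.factorial, θ, H, Nat.mul_pos hM0 (Nat.factorial_pos z), h1, h2, h3,
    h4.mono fun N hN h hh => (hN h hh).trans ?_⟩
  rw [Nat.cast_le]
  refine Set.ncard_le_ncard ?_ ((Set.finite_Iic N).subset fun p hp => hp.1)
  rintro p ⟨hp1, hp2, hp3, hp4⟩
  choose q hq1 hq2 hq3 using hp4
  have hcl : ∀ x : ℕ, x.Prime → x % M = c % M →
      (2 ^ m ∣ x - 1 ∧ ¬ 2 ^ (m + 1) ∣ x - 1) ∧ ∀ l : ℕ, 1 < l → l ∣ Q → x % l = 1 := by
    intro x hx hxc
    have hx1 := hx.one_lt
    constructor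
    · have e1 : x % 2 ^ (m + 1) = c % 2 ^ (m + 1) := by
        have h5 : (x % M) % 2 ^ (m + 1) = (c % M) % 2 ^ (m + 1) := by rw [hxc]
        rwa [hM, Nat.mod_mul_right_mod, Nat.mod_mul_right_mod] at h5
      have e2 : x ≡ c [MOD 2 ^ (m + 1)] := e1
      have e3 : 2 ^ (m + 1) ∣ 2 ^ m * Q → False := by
        rw [pow_succ]
        intro hd
        exact hQodd (Nat.dvd_of_mul_dvd_mul_left (by positivity) hd)
      have e4 : x - 1 ≡ 2 ^ m * Q [MOD 2 ^ (m + 1)] := by
        refine Nat.ModEq.add_right_cancel' 1 ?_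
        rw [Nat.sub_add_cancel hx1.le, add_comm (2 ^ m * Q) 1]
        exact e2
      refine ⟨?_, fun hd => e3 ((e4.dvd_iff dvd_rfl).1 hd)⟩
      exact (e4.dvd_iff (pow_dvd_pow 2 (Nat.le_succ m))).2 (Dvd.intro _ rfl)
    · intro l hl hlQ
      have e1 : x ≡ c [MOD l] := Nat.ModEq.of_dvd (hlQ.mul_left _) hxc
      have e2 : c ≡ 1 [MOD l] := by
        have e5 : 2 ^ m * Q ≡ 0 [MOD l] := (Nat.modEq_zero_iff_dvd).2 (hlQ.mul_left _)
        have e6 : 1 + 2 ^ m * Q ≡ 1 + 0 [MOD l] := e5.add_left 1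
        exact e6
      have e3 := e1.trans e2
      rw [Nat.ModEq, Nat.mod_eq_of_lt hl] at e3
      exact e3
  set r : Fin (k + 1) → ℕ := Fin.cons p q with hr
  have hrP : ∀ i, (r i).Prime ∧ r i % M = c % M := by
    intro i
    refine Fin.cases ⟨hp2, hp3⟩ (fun j => ⟨hq1 j, hq2 j⟩) i
  set h' : Fin (k + 1) → ℤ := Fin.cons 0 h with hh'
  have hre : ∀ i, (r i : ℤ) = p + (M * z.factorial : ℕ) * h' i := by
    intro i
    refine Fin.cases ?_ (fun j => ?_) i
    · show (p : ℤ) = p + (M * z.factorial : ℕ) * 0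
      ring
    · show (q j : ℤ) = p + (M * z.factorial : ℕ) * h j
      exact hq3 j
  have hW0 : ((M * z.factorial : ℕ) : ℤ) ≠ 0 := by
    have : 0 < M * z.factorial := Nat.mul_pos hM0 (Nat.factorial_pos z)
    exact_mod_cast this.ne'
  have hinj' : Function.Injective h' := by
    intro i j
    refine Fin.cases ?_ (fun i' => ?_) i <;> refine Fin.cases ?_ (fun j' => ?_) j
    · intro _; rfl
    · intro hij
      exact absurd (show h j' = 0 from hij.symm) ((h2 h hh).1 j').2
    · intro hij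
      exact absurd (show h i' = 0 from hij) ((h2 h hh).1 i').2
    · intro hij
      rw [(h2 h hh).2 (show h i' = h j' from hij)]
  have hrinj : Function.Injective r := by
    intro i j hij
    apply hinj'
    have e1 := hre i
    rw [hij, hre j] at e1
    exact (mul_left_cancel₀ hW0 (by linarith))
  have hbd : ∀ i, |h' i| ≤ X := by
    intro i
    refine Fin.cases ?_ (fun j => ((h2 h hh).1 j).1.1) i
    show |(0 : ℤ)| ≤ X
    simp
  refine ⟨hp1, r, rfl, hq3, hrinj, fun i => ⟨(hrP i).1, fun hS => ?_,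
    (hcl _ (hrP i).1 (hrP i).2).1.1, (hcl _ (hrP i).1 (hrP i).2).1.2⟩, ?_⟩
  · have e1 := (hcl _ (hrP i).1 (hrP i).2).2 (r i) (hS1 _ hS).1.one_lt (hSQ _ hS)
    rw [Nat.mod_self] at e1
    exact absurd e1 (by norm_num)
  · intro n A _ _ _ _ hA h2A ρ' hρ' hur hI
    refine Pool.Agent.V11208.TR.tame_noeth m n hm (S₀ ∪ Finset.univ.image r) ?_ ?_ A hA h2A ρ' hρ'
      hur ?_
    · intro l hl
      rcases Finset.mem_union.1 hl with h5 | h5
      · exact hS1 l h5
      · obtain ⟨i, -, rfl⟩ := Finset.mem_image.1 h5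
        refine ⟨(hrP i).1, ?_, (hcl _ (hrP i).1 (hrP i).2).1.2⟩
        intro h6
        have h7 := (hcl _ (hrP i).1 (hrP i).2).1.1
        rw [h6] at h7
        have h8 := Nat.le_of_dvd (by norm_num) h7
        have h9 : 2 ^ 2 ≤ 2 ^ m := Nat.pow_le_pow_right (by norm_num) hm
        omega
    · intro J hJ hJm hJ5
      refine Pool.Agent.V11161.BH.loose_union m hm S₀ (Finset.univ.image r)
        (fun l hl => ⟨(hS1 l hl).1, (hS1 l hl).2.1⟩) hS2 ?_ ?_ ?_ J hJ hJm hJ5
      · intro a ha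
        obtain ⟨i, -, rfl⟩ := Finset.mem_image.1 ha
        exact ⟨(hrP i).1, (hcl _ (hrP i).1 (hrP i).2).1⟩
      · intro a ha b' hb' hab y hy hy2 hyd
        obtain ⟨i, -, rfl⟩ := Finset.mem_image.1 ha
        obtain ⟨j, -, rfl⟩ := Finset.mem_image.1 hb'
        refine (hcl _ (hrP j).1 (hrP j).2).2 y hy.one_lt ?_
        have e1 : (r i : ℤ) - r j = (M * z.factorial : ℕ) * (h' i - h' j) := by
          rw [hre i, hre j]
          ring
        rw [e1, Int.natAbs_mul, Int.natAbs_natCast] at hyd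
        rcases (Nat.Prime.dvd_mul hy).1 hyd with h5 | h5
        · rcases (Nat.Prime.dvd_mul hy).1 h5 with h6 | h6
          · rw [hM] at h6
            rcases (Nat.Prime.dvd_mul hy).1 h6 with h7 | h7
            · exact absurd ((Nat.prime_dvd_prime_iff_eq hy Nat.prime_two).1
                (hy.dvd_of_dvd_pow h7)) hy2
            · exact h7
          · have h7 := (Nat.Prime.dvd_factorial hy).1 h6
            exact hsmall y hy hy2 (by omega)
        · have hne : h' i - h' j ≠ 0 := by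
            intro h6
            apply hab
            rw [hinj' (sub_eq_zero.1 h6)]
          have h6 := Nat.le_of_dvd (Int.natAbs_pos.2 hne) h5
          have h7 : (h' i - h' j).natAbs ≤ 2 * X := by
            have e2 := abs_le.1 (hbd i)
            have e3 := abs_le.1 (hbd j)
            omega
          exact hsmall y hy hy2 (by omega)
      · intro l hl b' hb'
        obtain ⟨j, -, rfl⟩ := Finset.mem_image.1 hb'
        exact (hcl _ (hrP j).1 (hrP j).2).2 l (hS1 l hl).1.one_lt (hSQ l hl)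
    · intro P hP hl τ hτ i j
      have h5 := hI P hP hl τ hτ i j
      rw [Nat.cast_ofNat]
      exact h5

end Pool.Agent.Results.MP_924d78_nt.TameClusters
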