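import Mathlib
import Pool.Agent.V11161.BH.Propor
import Pool.Agent.V11208.TR.Tame

set_option autoImplicit false

/-!
# MP_924d78_nt: tame representations over Noetherian local rings of residue characteristic two, the
proportion of the sets of ramified primes

Let `m ≥ 2`. For a finite set `S` of odd primes, none of them `1` modulo `2 ^ (m + 1)`, consider the
continuous representations `ρ : Gal(ℚbar/ℚ) → GL_n(A)`, of any dimension `n` and with coefficients in
an arbitrary Noetherian local ring `A` of residue characteristic two, with its adic topology, which are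
unramified outside `S` (so also at `2`) and trivial modulo `2 ^ m` on the inertia groups at the primes
in `S`. The conjecture predicts that the image of `ρ` is finite.

Here the primes `≡ 1 mod 2 ^ m` in `S` are chosen at random: for every `r` the prediction is true, for
all `n` and all `A` simultaneously, for at least the proportion `density r - o(1)` of the `r`-element
sets `S` of primes `≤ N` in the class of `1 + 2 ^ m` modulo `2 ^ (m + 1)`, and then also for all sets
`S ∪ S₁` with arbitrary finite sets `S₁` of odd primes `≢ 1 mod 2 ^ m`. The image is even trivial for all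
`A` in which `2 ^ (m + 1) a = 0` implies `2 ^ m a = 0`. The number `density r > 0` is the proportion of
those graphs on `r` labelled vertices for which every set `J` of at least five vertices is loose: some
`l ∈ J` is adjacent to all other elements of `J` but at most one, or to at most one of them, or the
graph on `J` is disconnected or has a disconnected complement. It is `1` for `r ≤ 4`, and for `r = 5` it
is at least `253 / 256`, more than 98.8 percent (the exceptions are the pentagons).

Proof. The criterion for one set `S` (`Pool.Agent.V11208.TR.tame_noeth`) follows from the starting result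
`AllDimensions` and the matrix computations of the starting result `MP_f68ac8_nt.TameAllRanks`. The
quadratic residue symbols of a random tuple of primes of the class are equidistributed; the law of the
graph is due to helper161 (`Pool.Agent.V11161.BH.proportion`, in `MP_f68ac8_nt.TameProportion`, for
discrete valuation rings of characteristic zero).
-/

namespace Pool.Agent.Results.MP_924d78_nt.TameProportion

open NumberField IsLocalRing Filter

/-- `ρ` is unramified at all primes that do not lie above a prime number in `S` -/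
def UnramifiedOutside {n : ℕ} {A : Type} [CommRing A] (S : Finset ℕ)
    (ρ : Gal(AlgebraicClosure ℚ/ℚ) →* GL (Fin n) A) : Prop :=
  ∀ P : Ideal (𝓞 (AlgebraicClosure ℚ)), P.IsMaximal →
    (∀ l ∈ S, (l : 𝓞 (AlgebraicClosure ℚ)) ∉ P) →
    ∀ τ : Gal(AlgebraicClosure ℚ/ℚ), (∀ x : 𝓞 (AlgebraicClosure ℚ), τ • x - x ∈ P) → ρ τ = 1

/-- the inertia groups at the primes above a prime number in `S` act trivially modulo `2 ^ m` -/
def InertiaTrivialMod {n : ℕ} {A : Type} [CommRing A] (m : ℕ) (S : Finset ℕ)
    (ρ : Gal(AlgebraicClosure ℚ/ℚ) →* GL (Fin n) A) : Prop :=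
  ∀ P : Ideal (𝓞 (AlgebraicClosure ℚ)), P.IsMaximal →
    (∃ l ∈ S, (l : 𝓞 (AlgebraicClosure ℚ)) ∈ P) →
    ∀ τ : Gal(AlgebraicClosure ℚ/ℚ), (∀ x : 𝓞 (AlgebraicClosure ℚ), τ • x - x ∈ P) →
      ∀ i j, (2 : A) ^ m ∣ ((ρ τ : Matrix (Fin n) (Fin n) A) - 1) i j

/-- Every continuous representation of any dimension `n` over any Noetherian local ring `A` of residue
characteristic two, which is unramified outside `S` and trivial modulo `2 ^ m` on the inertia groups at
the primes in `S`, has finite image, and is trivial if `2 ^ (m + 1) a = 0` implies `2 ^ m a = 0` in `A`. -/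
def TameFinite (m : ℕ) (S : Finset ℕ) : Prop :=
  ∀ (n : ℕ) (A : Type) [CommRing A] [IsLocalRing A] [IsNoetherianRing A]
    [TopologicalSpace A], IsAdic (maximalIdeal A) → (2 : A) ∈ maximalIdeal A →
    ∀ ρ : Gal(AlgebraicClosure ℚ/ℚ) →* GL (Fin n) A, Continuous ρ → UnramifiedOutside S ρ →
      InertiaTrivialMod m S ρ → (Set.range ρ).Finite ∧
        ((∀ a : A, (2 : A) ^ (m + 1) * a = 0 → (2 : A) ^ m * a = 0) → ∀ g, ρ g = 1)

/-- Some `l ∈ J` is adjacent to at most one element of `J`, or not adjacent to at most one other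
element of `J`, or `J` has a nonempty proper subset `K` with no edge between `K` and `J \ K`, or with
all edges between `K` and `J \ K`. -/
def LooseGraph {V : Type} (G : SimpleGraph V) (J : Finset V) : Prop :=
  (∃ l ∈ J, {j : V | j ∈ J ∧ G.Adj l j}.Subsingleton) ∨
  (∃ l ∈ J, {j : V | j ∈ J ∧ j ≠ l ∧ ¬ G.Adj l j}.Subsingleton) ∨
  ∃ K : Finset V, K ⊂ J ∧ K.Nonempty ∧
    ((∀ l ∈ K, ∀ j ∈ J, j ∉ K → ¬ G.Adj l j) ∨ ∀ l ∈ K, ∀ j ∈ J, j ∉ K → G.Adj l j)

/-- all sets of at least five vertices are loose -/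
def GoodGraph {V : Type} (G : SimpleGraph V) : Prop :=
  ∀ J : Finset V, 5 ≤ J.card → LooseGraph G J

/-- the proportion of the good graphs among the graphs on `r` labelled vertices -/
noncomputable def density (r : ℕ) : ℝ :=
  (Nat.card {G : SimpleGraph (Fin r) // GoodGraph G} : ℝ) / Nat.card (SimpleGraph (Fin r))

/-- the `r`-element sets of primes `l ≤ N`, `l ≡ 1 + 2 ^ m` modulo `2 ^ (m + 1)` -/
def sets (m r N : ℕ) : Set (Finset ℕ) :=
  {S : Finset ℕ | S.card = r ∧ ∀ l ∈ S, l ≤ N ∧ l.Prime ∧ l ≡ 1 + 2 ^ m [MOD 2 ^ (m + 1)]}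

/-- those `S` for which the prediction is true, for `S` and for all `S ∪ S₁` with a finite set `S₁` of
odd primes which are not `1` modulo `2 ^ m` -/
def goodSets (m r N : ℕ) : Set (Finset ℕ) :=
  {S : Finset ℕ | S ∈ sets m r N ∧
    ∀ S₁ : Finset ℕ, (∀ l ∈ S₁, l.Prime ∧ l ≠ 2 ∧ ¬ 2 ^ m ∣ l - 1) → TameFinite m (S ∪ S₁)}

theorem result (m : ℕ) (hm : 2 ≤ m) :
    (∀ (r : ℕ) (ε : ℝ), 0 < ε → ∀ᶠ N : ℕ in atTop,
      (density r - ε) * ((sets m r N).ncard : ℝ) ≤ ((goodSets m r N).ncard : ℝ)) ∧
    (∀ r : ℕ, 0 < density r) ∧ 253 / 256 ≤ density 5 := by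
  classical
  refine ⟨fun r ε hε => ?_, Pool.Agent.V11161.BH.density_pos, Pool.Agent.V11161.BH.density5⟩
  have h := Pool.Agent.V11161.BH.proportion r m hm
    (fun S => ∀ S₁ : Finset ℕ, (∀ l ∈ S₁, l.Prime ∧ l ≠ 2 ∧ ¬ 2 ^ m ∣ l - 1) →
      TameFinite m (S ∪ S₁)) ?_ ε hε
  · refine h.mono fun N hN => ?_
    have e1 : sets m r N =
        (((Pool.Agent.V11161.BH.PP (2 ^ (m + 1)) (1 + 2 ^ m) N).powersetCard r : Finset _) :
          Set (Finset ℕ)) := by
      ext S
      rw [Finset.mem_coe, Finset.mem_powersetCard]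
      unfold Pool.Agent.V11161.BH.PP
      constructor
      · rintro ⟨h1, h2⟩
        refine ⟨fun l hl => ?_, h1⟩
        rw [Finset.mem_filter, Finset.mem_Icc]
        exact ⟨⟨(h2 l hl).2.1.pos, (h2 l hl).1⟩, (h2 l hl).2⟩
      · rintro ⟨h1, h2⟩
        refine ⟨h2, fun l hl => ?_⟩
        have h3 := h1 hl
        rw [Finset.mem_filter, Finset.mem_Icc] at h3
        exact ⟨h3.1.2, h3.2⟩
    have e2 : goodSets m r N =
        ((((Pool.Agent.V11161.BH.PP (2 ^ (m + 1)) (1 + 2 ^ m) N).powersetCard r).filter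
          fun S => ∀ S₁ : Finset ℕ, (∀ l ∈ S₁, l.Prime ∧ l ≠ 2 ∧ ¬ 2 ^ m ∣ l - 1) →
            TameFinite m (S ∪ S₁) : Finset _) : Set (Finset ℕ)) := by
      ext S
      rw [Finset.mem_coe, Finset.mem_filter, ← Finset.mem_coe, ← e1]
      rfl
    rw [e1, e2, Set.ncard_coe_finset, Set.ncard_coe_finset]
    exact hN
  · intro S hS hJ S₁ hS₁ n A _ _ _ _ hA h2A ρ hρ hur hI
    have hcl : ∀ l ∈ S, l ≠ 2 ∧ ¬ 2 ^ (m + 1) ∣ l - 1 := by
      intro l hl
      have h1 := Pool.Agent.V11161.BH.class_four hm (hS l hl).2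
      have h2 := (hS l hl).1.one_lt
      refine ⟨by rintro rfl; norm_num at h1, fun hd => ?_⟩
      have h3 : l - 1 ≡ 2 ^ m [MOD 2 ^ (m + 1)] := by
        refine Nat.ModEq.add_right_cancel' 1 ?_
        rw [Nat.sub_add_cancel h2.le, add_comm (2 ^ m) 1]
        exact (hS l hl).2
      have h4 : 2 ^ (m + 1) ∣ 2 ^ m := (h3.dvd_iff dvd_rfl).1 hd
      have h5 := Nat.le_of_dvd (by positivity) h4
      have h6 : 2 ^ m < 2 ^ (m + 1) := Nat.pow_lt_pow_right (by norm_num) (Nat.lt_succ_self m)
      omega
    refine Pool.Agent.V11208.TR.tame_noeth m n hm (S ∪ S₁) ?_ ?_ A hA h2A ρ hρ hur ?_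
    · intro l hl
      rcases Finset.mem_union.1 hl with h5 | h5
      · exact ⟨(hS l h5).1, hcl l h5⟩
      · refine ⟨(hS₁ l h5).1, (hS₁ l h5).2.1, fun hd => (hS₁ l h5).2.2 ?_⟩
        exact (pow_dvd_pow 2 (Nat.le_succ m)).trans hd
    · intro J hJS hJm hJ5
      refine hJ J (fun l hl => ?_) hJ5
      rcases Finset.mem_union.1 (hJS hl) with h5 | h5
      · exact h5
      · exact absurd (hJm l hl) (hS₁ l h5).2.2
    · intro P hP hl τ hτ i j
      have h5 := hI P hP hl τ hτ i j
      rw [Nat.cast_ofNat]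
      exact h5

end Pool.Agent.Results.MP_924d78_nt.TameProportion
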